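import Pool.Agent.Helper62.CX.Stm

/-!
# One node of arbitrary thickness: statements

In `BW/Stm.lean` the total space of the family is smooth at the node, `∂F/∂t ≠ 0`, and in `CX/Stm.lean` the two
zeros meet transversally. Both assumptions are superfluous: the residue is multiplied by the thickness of
the node.
-/

set_option autoImplicit false

open Polynomial Matrix Finset Filter NumberField IsDedekindDomain

namespace Pool.Agent.Helper62.VX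

open Pool.Agent.Helper62.BM Pool.Agent.Helper62.BW Pool.Agent.Helper62.BX Pool.Agent.Helper62.CX

section

variable {A : Type} [CommRing A]

/-- The fibre `F(x, t₀) = (x - x₀) ^ 2 f₁(x)` has one node. -/
def Node1 (F : A[X][X]) (t₀ x₀ : A) (f₁ : A[X]) : Prop :=
  F.map (evalRingHom t₀) = (X - Polynomial.C x₀) ^ 2 * f₁ ∧
    (f₁.map (algebraMap A (FractionRing A))).Separable ∧ f₁.eval x₀ ≠ 0

/-- At `t = t₀` a zero of `a` meets a zero of `b` at `x₀`, and this is the only degeneration. -/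
def NodeC1 (a b : A[X][X]) (t₀ x₀ : A) (a₁ b₁ : A[X]) : Prop :=
  a.map (evalRingHom t₀) = (X - Polynomial.C x₀) * a₁ ∧
  b.map (evalRingHom t₀) = (X - Polynomial.C x₀) * b₁ ∧
    ((a₁ * b₁).map (algebraMap A (FractionRing A))).Separable ∧ (a₁ * b₁).eval x₀ ≠ 0

end

/-- V1. Proof as `W_Loc` (helper31's `BW/Loc.lean`). New is only the following. Over the field of fractions `k` let
`P F + S F' = d x ^ l ∂F/∂t`, `τ = t - t₀`. `F'(x, t₀)` has the simple zero `x₀` (the derivative is `2 f₁(x₀)`), so there is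
`s ∈ k[[τ]]`, `s(0) = x₀`, `F'(s, t) = 0` (Hensel). Let `φ(τ) = F(s, t)`; it is not zero (`F`, `F'` are coprime), `φ(0) = 0`,
and `φ' = ∂F/∂t (s, t)` (chain rule, `F'(s, t) = 0`). So `P(s, t) φ = d s ^ l φ'`, and if `τ ^ 2` divides `d` then `P(x₀, t₀) = 0`
(the order of `φ'` is the order `ν ≥ 1` of `φ` minus one), so `λ_l = 0` at `t₀` (`P = - λ (2 f₁ + (x - x₀) f₁')`,
`S = λ (x - x₀) f₁`), and `P`, `S` are divisible by `τ`. -/
def V_Loc : Prop :=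
  ∀ (A : Type) [CommRing A] [IsDomain A] [CharZero A] (g : ℕ), 1 ≤ g → ∀ (F : A[X][X]),
    Gen g F → ∀ (t₀ x₀ : A) (f₁ : A[X]), Node1 F t₀ x₀ f₁ →
    ∃ (w : A[X]) (P S : Fin (2 * g) → A[X][X]), w.eval t₀ ≠ 0 ∧
      Rel g F ((X - Polynomial.C t₀) * (2 * w)) P S

/-- V2. The residue; `ν` is the thickness of the node (the order of `φ` in `V_Loc`). Proof as `W_Rk` (helper93's
`BW/RkQe.lean`), but now `P(x₀, t₀) = ν w(t₀) x₀ ^ l` from `P(s, t) φ = W / 2 s ^ l φ'`. -/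
def V_Rk : Prop :=
  ∀ (A : Type) [CommRing A] [IsDomain A] [CharZero A] (g : ℕ), 1 ≤ g → ∀ (F : A[X][X]),
    Gen g F → ∀ (t₀ x₀ : A) (f₁ : A[X]), Node1 F t₀ x₀ f₁ →
    ∀ (w : A[X]) (P S : Fin (2 * g) → A[X][X]), Rel g F ((X - Polynomial.C t₀) * (2 * w)) P S →
    ∃ ν : ℕ, 0 < ν ∧ ∀ m l : Fin (2 * g), 2 * f₁.eval x₀ * (Mg P S m l).eval t₀ =
      (ν : A) * w.eval t₀ * ((X - Polynomial.C x₀) * derivative f₁).coeff m * x₀ ^ (l : ℕ)

/-- V3. As `w_data` (helper62's `BW/Data.lean`), `κ = ν w(t₀)`. -/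
def V_Data : Prop :=
  ∀ (A : Type) [CommRing A] [IsDomain A] [CharZero A] (g : ℕ), 1 ≤ g → ∀ (F : A[X][X]),
    Gen g F → ∀ (t₀ x₀ : A) (f₁ : A[X]), Node1 F t₀ x₀ f₁ →
    ∃ (D : Dat A g) (P S : Fin (2 * g) → A[X][X]), Fam g F D P S ∧ D.Ok

/-- V4. As `X_W` (helper4's `BX/W.lean`) with `Node1`, from `V_Data`. -/
def V_W : Prop :=
  ∀ (K : Type) [Field K] [NumberField K] (r g : ℕ), 1 ≤ g → ∀ (F : (Rp K r)[X][X])
    (φ : (Rp K r)[X]), Gen g F →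
    (∃ (t₀ x₀ : Cl K r) (f₁ : (Cl K r)[X]),
      Node1 (F.map (mapRingHom (algebraMap (Rp K r) (Cl K r)))) t₀ x₀ f₁) →
    IrrF (Cl K r) g (F.map (mapRingHom (algebraMap (Rp K r) (Cl K r)))) → 1 ≤ φ.natDegree →
    ∀ G : MvPolynomial (Fin g × Fin g) (Rp K r)[X], G ≠ 0 →
    FewR (fun _ => True) (GoodW g F φ G)

/-- V5. As `C_Loc`. New: `Lam(a', b')(x, t₀)` has the simple zero `x₀` (the derivative is `m (a₁ b₁)(x₀)`), let
`s ∈ k[[τ]]`, `s(0) = x₀`, `Lam(a', b')(s, t) = 0`; `α = a(s, t)`, `β = b(s, t)` are not zero (if `a(s, t) = 0` then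
`a' b = 0` at `(s, t)`, against the separability of `a b`), `α(0) = β(0) = 0`, and
`r α' β + (m - r) α β' = Lam(a_t, b_t)(s, t)`. For the existence of `W` with a simple zero: the `d ∈ k[t]` such that for
all `l` there are `P, S` with `m P a b + S Lam(a', b') = d x ^ l Lam(a_t, b_t)`, `deg P < N`, `deg S ≤ N`, are an ideal
`≠ 0` (its generator `d`); if `τ ^ 2` divides `d`, then at `t₀` one has `S = - m λ (x - x₀) a₁ b₁`,
`P = λ (m a₁ b₁ + (x - x₀) (r a₁' b₁ + (m - r) a₁ b₁'))`, and `m P(s, t) = d s ^ l (r α'/α + (m - r) β'/β)` gives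
`P(x₀, t₀) = 0`, so `λ = 0` and everything is divisible by `τ`. If `τ` does not divide `d`, multiply by `τ`. -/
def V_LocC : Prop :=
  ∀ (A : Type) [CommRing A] [IsDomain A] [CharZero A] (m r na nb N : ℕ), 0 < r → r < m →
    N + 1 = na + nb → ∀ (a b : A[X][X]), GenC na nb a b → ∀ (t₀ x₀ : A) (a₁ b₁ : A[X]),
    NodeC1 a b t₀ x₀ a₁ b₁ → ∃ (w : A[X]) (P S : Fin N → A[X][X]), w.eval t₀ ≠ 0 ∧
      RelC m r N a b ((X - Polynomial.C t₀) * w) P S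

/-- V6. As `C_Rk` (helper15's `CX/Rk.lean`), with `m P(x₀, t₀) = ν w(t₀) x₀ ^ l`,
`ν = r ord α + (m - r) ord β`. -/
def V_RkC : Prop :=
  ∀ (A : Type) [CommRing A] [IsDomain A] [CharZero A] (m r na nb N : ℕ), 0 < r → r < m →
    N + 1 = na + nb → ∀ (a b : A[X][X]), GenC na nb a b → ∀ (t₀ x₀ : A) (a₁ b₁ : A[X]),
    NodeC1 a b t₀ x₀ a₁ b₁ → ∀ (w : A[X]) (P S : Fin N → A[X][X]),
      RelC m r N a b ((X - Polynomial.C t₀) * w) P S →
    ∃ ν : ℕ, 0 < ν ∧ ∀ i l : Fin N, (m : A) ^ 2 * (a₁ * b₁).eval x₀ * (Mc P S i l).eval t₀ =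
      (ν : A) * w.eval t₀ * ((X - Polynomial.C x₀) * (((m - r : ℕ) : A[X]) * derivative a₁ * b₁ +
        (r : A[X]) * a₁ * derivative b₁)).coeff i * x₀ ^ (l : ℕ)

/-- V7. As `C_Data` (helper82's `CX/Data.lean`), `μ = m ^ 2 (a₁ b₁)(x₀)`, `κ = ν w(t₀)`. -/
def V_DataC : Prop :=
  ∀ (A : Type) [CommRing A] [IsDomain A] [CharZero A] (m r na nb N : ℕ), 0 < r → r < m →
    2 ≤ N → N + 1 = na + nb → ∀ (a b : A[X][X]), GenC na nb a b → ∀ (t₀ x₀ : A) (a₁ b₁ : A[X]),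
    NodeC1 a b t₀ x₀ a₁ b₁ → ∃ (D : Cdat A N) (P S : Fin N → A[X][X]),
      FamC m r na nb a b D P S ∧ D.Ok

/-- V8. `C_FewR` with `NodeC1`: from `V_DataC`, and for `2 r = m` from `V_Data` for `F = a b`, `f₁ = a₁ b₁`
(`Node1 (a b) t₀ x₀ (a₁ b₁)` is immediate), instead of `C_Data`, `C_Half`. -/
def V_C : Prop :=
  ∀ (K : Type) [Field K] [NumberField K] (q m na nb N : ℕ), 2 ≤ m → 1 ≤ na → 1 ≤ nb → 2 ≤ N →
    N + 1 = na + nb → (∀ r, 0 < r → r < m → ¬ m ∣ r * na + (m - r) * nb) →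
    ∀ (a b : (Rp K q)[X][X]) (φ : (Rp K q)[X]), GenC na nb a b →
    (∃ (t₀ x₀ : Cl K q) (a₁ b₁ : (Cl K q)[X]),
      NodeC1 (a.map (mapRingHom (algebraMap (Rp K q) (Cl K q))))
        (b.map (mapRingHom (algebraMap (Rp K q) (Cl K q)))) t₀ x₀ a₁ b₁) →
    (∀ r, 0 < r → r < m → IrrC (Cl K q) m r N
      (a.map (mapRingHom (algebraMap (Rp K q) (Cl K q))))
      (b.map (mapRingHom (algebraMap (Rp K q) (Cl K q)))) ∧
      (2 * r = m ∨ N = 2 ∨ Odd N ∨ NoBilC (Cl K q) m r N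
        (a.map (mapRingHom (algebraMap (Rp K q) (Cl K q))))
        (b.map (mapRingHom (algebraMap (Rp K q) (Cl K q)))))) → 1 ≤ φ.natDegree →
    ∀ G : ∀ r, MvPolynomial (Fin (dC m r na nb) × Fin (dC m r na nb)) (Rp K q)[X],
    (∀ r, G r ≠ 0) → FewR (fun v => m ∣ Ideal.absNorm v.asIdeal - 1) (GoodMp m na nb a b φ G)

end Pool.Agent.Helper62.VX
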