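import Pool.Agent.Helper62.CX.Main
import Pool.Agent.Helper62.VX.Stm
import Pool.Agent.Helper4.VX.VC
import Pool.Agent.Helper13.VX.W
import Pool.Agent.Helper15.VX.RkC
import Pool.Agent.Helper38.VX.Data
import Pool.Agent.Helper82.VX.LocC
import Pool.Agent.Helper90.VX.Loc
import Pool.Agent.Helper93.VX.Rk

/-!
# Assembly: nodes of arbitrary thickness
-/

set_option autoImplicit false

namespace Pool.Agent.Helper62.VX

open Pool.Agent.Helper62.BM Pool.Agent.Helper62.BW Pool.Agent.Helper62.BX Pool.Agent.Helper62.CX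

theorem vData : V_Data :=
  Pool.Agent.Helper38.VX.v_Data Pool.Agent.Helper18.BW.w_Hor Pool.Agent.Helper82.BW.w_QDet
    Pool.Agent.Helper93.BW.w_qe Pool.Agent.Helper90.VX.v_loc Pool.Agent.Helper93.VX.v_rk

theorem vDataC : V_DataC :=
  Pool.Agent.Helper38.VX.v_DataC Pool.Agent.Helper82.VX.v_LocC Pool.Agent.Helper15.VX.v_RkC

theorem vW : V_W :=
  Pool.Agent.Helper13.VX.v_W vData Pool.Agent.Helper12.BW.w_strong Pool.Agent.Helper90.BW.w_tr
    Pool.Agent.Helper90.BW.w_irr wFewG x_Spread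

theorem vC : V_C :=
  Pool.Agent.Helper4.VX.v_C vDataC vData Pool.Agent.Helper12.CX.c_strong
    Pool.Agent.Helper90.CX.c_tr Pool.Agent.Helper90.CX.c_irr Pool.Agent.Helper90.CX.c_bil cFewG
    Pool.Agent.Helper90.CX.c_irrHalf Pool.Agent.Helper90.BW.w_irr Pool.Agent.Helper12.BW.w_strong
    Pool.Agent.Helper90.BW.w_tr wFewG x_Spread

end Pool.Agent.Helper62.VX
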